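import Mathlib
import Pool.Agent.V8H6.GK.Defs
import Pool.Agent.V8H6.GK.Star
import Pool.Agent.V8H6.GK.Tc

namespace Pool.Agent.Results.MP_0db605_an.AntiSelfDual

open Matrix V8H6.GK

/-- For the integrands on the `2`-planes of `ℝ⁴` which only depend on the anti-self-dual part
`om V` of the Plücker vector, the atomic condition and the exposed condition are equivalent, and
both are equivalent to the scalar condition `trace (A B) < 2` for distinct points of the Gauss
image and to an explicit first order inequality for the one-homogeneous function `Psi F`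
on `ℝ³`. -/
theorem result (F : Matrix (Fin 4) (Fin 4) ℝ → ℝ) (hF : IsIntegrand 2 F)
    (hdep : ∀ V ∈ Frame 4 2, ∀ U ∈ Frame 4 2, om V = om U → F (proj V) = F (proj U)) :
    (AC 2 F ↔ EC 2 F) ∧
      (AC 2 F ↔ ∀ A ∈ GaussImage 2 F, ∀ B ∈ GaussImage 2 F,
        A ≠ B → (A * B).trace < ((2 : ℕ) : ℝ)) ∧
      (AC 2 F ↔ ∀ y z : Fin 3 → ℝ, y ≠ 0 → (∀ t : ℝ, z ≠ t • y) →
        Psi F y * fderiv ℝ (Psi F) y z +
          (1 / 2) * (∑ l, (fderiv ℝ (Psi F) y (Pi.single l 1)) ^ 2) *
            (nrm y * nrm z - dt y z) <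
        Psi F y * Psi F z) :=
  ⟨(asd_main hF hdep).1,
    ⟨fun h => (tc_iff hF).1 (TC_of_star hF hdep (star_of_AC hF hdep h)),
      fun h => AC_of_EC (EC_of_TC hF ((tc_iff hF).2 h))⟩,
    (asd_main hF hdep).2⟩

end Pool.Agent.Results.MP_0db605_an.AntiSelfDual
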