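import Mathlib
import Pool.Agent.V8H6.GK.Defs
import Pool.Agent.V8H6.GK.Trace
import Pool.Agent.V8H6.GK.Axis
import Pool.Agent.V8H6.GK.Tc
import Pool.Agent.V8H6.GK.PrDefs
import Pool.Agent.V8H6.GK.Pr

namespace Pool.Agent.Results.MP_0db605_an.AxiallySymmetric

open Matrix V8H6.GK

/-- For the axially symmetric `k`-integrands in `ℝⁿ` (`k = m + 1`, `n = N + 1` arbitrary), those
for which `F (T)` only depends on the angle between `T` and the first coordinate axis `e₀`, that is
on `⟨T e₀, e₀⟩`, the atomic condition and the exposed condition are equivalent, and both are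
equivalent to the scalar condition `trace (A B) < k` for distinct points of the Gauss image and,
if `k < n`, to the strict convexity of the profile `prf m F` on `ℝ²`. -/
theorem result (N m : ℕ) (F : Matrix (Fin (N + 1)) (Fin (N + 1)) ℝ → ℝ)
    (hF : IsIntegrand (m + 1) F)
    (hsym : ∀ V ∈ Frame (N + 1) (m + 1), ∀ U ∈ Frame (N + 1) (m + 1),
      proj V 0 0 = proj U 0 0 → F (proj V) = F (proj U)) :
    (AC (m + 1) F ↔ EC (m + 1) F) ∧
      (AC (m + 1) F ↔ ∀ A ∈ GaussImage (m + 1) F, ∀ B ∈ GaussImage (m + 1) F,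
        A ≠ B → (A * B).trace < ((m + 1 : ℕ) : ℝ)) ∧
      (m < N → (AC (m + 1) F ↔ ∀ a b c d : ℝ, a * d - b * c ≠ 0 →
        prf m F (a + c) (b + d) < prf m F a b + prf m F c d)) :=
  ⟨axi_main hF hsym, (axi_main' hF hsym).trans (tc_iff hF), fun h => axi_profile h hF hsym⟩

end Pool.Agent.Results.MP_0db605_an.AxiallySymmetric
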