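import Mathlib
import Pool.Agent.V8H6.EC.Defs
import Pool.Agent.V8H6.EC.Main

namespace Pool.Agent.Results.MP_0db605_an.CurveIntegrands

open V8H6.EC

/-- For one-dimensional integrands in any dimension the atomic condition, the exposed condition
and strict convexity coincide. -/
theorem result (n : ℕ) (F : Matrix (Fin n) (Fin n) ℝ → ℝ) (hF : IsIntegrand F) :
    (AC F ↔ EC F) ∧ (AC F ↔ StrictConv F) :=
  main hF

end Pool.Agent.Results.MP_0db605_an.CurveIntegrands
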