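import Mathlib
import Pool.Agent.V8H6.GK.Defs
import Pool.Agent.V8H6.GK.Main

namespace Pool.Agent.Results.MP_0db605_an.DecreasingProjections

open Matrix V8H6.GK

/-- Let `F` be a `k`-integrand satisfying the atomic condition.  For every `k`-plane `T` (the span
of a frame `V`) the transpose of the point of the Gauss image at `T` is a linear projection onto
`T`, and it strictly decreases the `F`-area of every parallelepiped spanned by a frame `U` of any
other `k`-plane. -/
theorem result (n k : ℕ) (F : Matrix (Fin n) (Fin n) ℝ → ℝ) (hF : IsIntegrand k F)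
    (hAC : AC k F) (V : Matrix (Fin n) (Fin k) ℝ) (hV : V ∈ Frame n k) :
    ∃ A ∈ GaussImage k F, (∃ B, IsFirstVar F V B ∧ A = (F (proj V))⁻¹ • B) ∧
      Aᵀ * V = V ∧ proj V * Aᵀ = Aᵀ ∧
      ∀ U ∈ Frame n k, proj U ≠ proj V →
        F (proj V) * vol (Aᵀ * U) < F (proj U) * vol U := by
  obtain ⟨B, hB⟩ : ∃ B, IsFirstVar F V B := ⟨_, (isFirstVar_iff hF hV _).2 rfl⟩
  have h1 := (main hF hAC hV hV hB).1
  exact ⟨_, ⟨V, hV, B, hB, rfl⟩, ⟨B, hB, rfl⟩, h1.1, h1.2,
    fun U hU hne => (main hF hAC hV hU hB).2 (Ne.symm hne)⟩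

end Pool.Agent.Results.MP_0db605_an.DecreasingProjections
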